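import Pool.Agent.H342VG.Final
import Pool.Agent.Helper106.VG.A
import Pool.Agent.Helper106.VG.C1
import Pool.Agent.Helper106.VG.TC2
import Pool.Agent.Helper106.VG.C3
import Pool.Agent.Helper106.VG.C4
import Pool.Agent.Helper106.VG.C5
import Pool.Agent.Helper106.VG.C6
import Pool.Agent.Helper106.VG.C7
import Pool.Agent.Helper106.VG.C8
import Pool.Agent.Helper106.VG.D1
import Pool.Agent.Helper106.VG.D2
import Pool.Agent.Helper106.VG.D3

/-!
# Strong infinite uniform spread of simple vigorous groups (MP_e4017d_al, Q1: the answer is yes)

Let `G` be a finitely generated simple vigorous group of homeomorphisms of Cantor space. Every element `g` of `G`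
without finite orbits is a witness for strong infinite uniform spread: for all nontrivial `α_1, …, α_k` in `G` some
conjugate `β` of `g` satisfies `⟨α_i, β⟩ = G` for every `i`.

A marker set `B` of `g` is chosen whose translates by many powers of `g` are pairwise disjoint and cover the space. The
conjugate of `g` is placed so that each `α_i` maps six prescribed translates of `F = B ∪ g B` onto six others in a
prescribed way and either fixes all other translates or moves them into the (large) set `F`; commutators of conjugates
then give 3-cycles of translates with prescribed holonomy, and these generate the alternating part of `F`, hence `G`.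
-/

namespace Pool.Agent.Results.MP_e4017d_al.StrongSpread

open Pool.Agent.Helper106.VG Pool.Agent.H342VG in
/-- Every finitely generated simple vigorous group of homeomorphisms of Cantor space that contains
an element `g` all of whose orbits are infinite has strong infinite uniform spread; moreover every
such element is a witness. -/
theorem result (G : Subgroup Hm) (hv : Vigorous G) (hs : IsSimpleGroup G) (hf : Group.FG G)
    (h : ∃ g : G, ∀ x : Cn, (Set.range fun n : ℤ => ((g : Hm) ^ n : Hm) x).Infinite) :
    StrongSpread G ∧
      ∀ g : G, (∀ x : Cn, (Set.range fun n : ℤ => ((g : Hm) ^ n : Hm) x).Infinite) → Witness g := by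
  have hgerm := c_germ a_room b_move
  have htri := c_tri hgerm a_ci a_room
  have htop := c_top b_small htri
  have hext := c_ext htri b_small b_img b_comp
  have hunion := c_union a_ci a_room b_img b_small htri
  have hperf := c_perf a_ci a_room b_img b_small c_comm htri
  have hfg := c_fg htop hperf
  have hcyc := c_cyc htri
  have hcompress := c_compress b_small
  have hcopy := c_copy b_inv b_comp htri
  have hpair := d_pair b_img b_comp b_small htri hcyc hcopy
  have hgen := d_gen b_img htop c_supp c_conj hunion hcopy
  have htwo := d_two hpair hgen hfg
  have main : ∀ g : G, (∀ x : Cn, (Set.range fun n : ℤ => ((g : Hm) ^ n : Hm) x).Infinite) →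
      Witness g := fun g hg =>
    strong_spread a_room b_small htop hext c_supp c_conj hunion hperf c_comm htwo hcompress
      hv hs hf g.2 hg
  obtain ⟨g, hg⟩ := h
  exact ⟨⟨g, main g hg⟩, main⟩

end Pool.Agent.Results.MP_e4017d_al.StrongSpread
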